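import Pool.Agent.E8helper69.CB.Stm

/-!
# CB / PID (helper87): class number one of the splitting field of `X^3 - X - 1`
-/

set_option autoImplicit false

namespace Pool.Agent.E8helper87.CB

open NumberField Pool.Agent.E8helper69.CB

/-- the square root of `-23` -/
theorem sq_s {H : Type} [Field H] (D : Fld H) :
    ((D.p - D.q) * (D.q - (-D.p - D.q)) * ((-D.p - D.q) - D.p)) ^ 2 = -23 := by
  have h1 := D.hp
  have h2 := D.hq
  set p := D.p
  set q := D.q
  have e : ((p - q) * (q - (-p - q)) * ((-p - q) - p)) ^ 2 = 4 * (q ^ 2 + p * q + p ^ 2) ^ 3 - 27 * (p * q * (-p - q)) ^ 2 := by ring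
  have e2 : p * q * (-p - q) = 1 := by
    linear_combination h1 - p * h2
  rw [e, e2, h2]; norm_num

/-- no real place -/
theorem nc {H : Type} [Field H] [NumberField H] (D : Fld H) (h6 : Module.finrank ℚ H = 6) :
    InfinitePlace.nrComplexPlaces H = 3 := by
  have hc : IsTotallyComplex H := by
    refine ⟨fun v => ?_⟩
    rw [← InfinitePlace.not_isReal_iff_isComplex]
    intro hv
    have f := InfinitePlace.embedding_of_isReal hv
    have := congrArg f (sq_s D)
    rw [map_pow] at this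
    have h0 := sq_nonneg (f ((D.p - D.q) * (D.q - (-D.p - D.q)) * ((-D.p - D.q) - D.p)))
    rw [this, map_neg] at h0
    have h23 : f 23 = 23 := map_ofNat f 23
    rw [h23] at h0
    norm_num at h0
  have := hc.finrank
  omega

/-- the trace of the elements of the basis -/
theorem traces {H : Type} [Field H] [NumberField H] (D : Fld H) (h6 : Module.finrank ℚ H = 6) :
    Algebra.trace ℚ H 1 = 6 ∧ Algebra.trace ℚ H D.p = 0 ∧ Algebra.trace ℚ H (D.p ^ 2) = 4 ∧
    Algebra.trace ℚ H D.q = 0 ∧ Algebra.trace ℚ H (D.p * D.q) = -2 ∧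
    Algebra.trace ℚ H (D.p ^ 2 * D.q) = -3 := by
  have hs : ∀ u, Algebra.trace ℚ H (D.σ u) = Algebra.trace ℚ H u := fun u =>
    Algebra.trace_eq_of_algEquiv D.σ.toRatAlgEquiv u
  have ht : ∀ u, Algebra.trace ℚ H (D.τ u) = Algebra.trace ℚ H u := fun u =>
    Algebra.trace_eq_of_algEquiv D.τ.toRatAlgEquiv u
  have t1 : Algebra.trace ℚ H 1 = 6 := by
    have := Algebra.trace_algebraMap (R := ℚ) (S := H) 1
    rw [map_one, h6] at this
    rw [this]; norm_num
  have tpq : Algebra.trace ℚ H D.q = Algebra.trace ℚ H D.p := by rw [← D.σp, hs]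
  have tp : Algebra.trace ℚ H D.p = 0 := by
    have h := hs D.q
    rw [D.σq, map_sub, map_neg, tpq] at h
    linarith
  have tq : Algebra.trace ℚ H D.q = 0 := by rw [tpq, tp]
  have tq2 : Algebra.trace ℚ H (D.q ^ 2) = Algebra.trace ℚ H (D.p ^ 2) := by
    rw [← D.σp, ← map_pow, hs]
  have e1 : Algebra.trace ℚ H (D.q ^ 2) + Algebra.trace ℚ H (D.p * D.q) +
      Algebra.trace ℚ H (D.p ^ 2) = 6 := by
    rw [← map_add, ← map_add, D.hq, t1]
  have e2 : Algebra.trace ℚ H (D.p * D.q) = - Algebra.trace ℚ H (D.p * D.q) -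
      Algebra.trace ℚ H (D.q ^ 2) := by
    have h := hs (D.p * D.q)
    rw [map_mul, D.σp, D.σq] at h
    have e : D.q * (-D.p - D.q) = - (D.p * D.q) - D.q ^ 2 := by ring
    rw [e, map_sub, map_neg] at h
    linarith
  have tpq' : Algebra.trace ℚ H (D.p * D.q) = -2 := by linarith
  have tp2 : Algebra.trace ℚ H (D.p ^ 2) = 4 := by linarith
  refine ⟨t1, tp, tp2, tq, tpq', ?_⟩
  have h := hs (D.p ^ 2 * D.q)
  rw [map_mul, map_pow, D.σp, D.σq] at h
  have h' := ht (D.p ^ 2 * D.q)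
  rw [map_mul, map_pow, D.τp, D.τq] at h'
  have e3 : D.q ^ 2 * (-D.p - D.q) = - (D.q ^ 2 * D.p) - D.q - 1 := by
    have hq3 : D.q ^ 3 = D.q + 1 := by
      rw [← D.σp, ← map_pow, D.hp, map_add, map_one]
    linear_combination - hq3
  rw [e3, map_sub, map_sub, map_neg, tq, t1, h'] at h
  linarith

/-- the matrix of the traces -/
def T : Matrix (Fin 6) (Fin 6) ℤ := !![6, 0, 4, 0, -2, -3; 0, 4, 6, -2, -3, -2;
  4, 6, 4, -3, -2, -5; 0, -2, -3, 4, -3, 2; -2, -3, -2, -3, 2, 1; -3, -2, -5, 2, 1, -1]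

theorem det_T : T.det = -12167 := by
  unfold T
  simp [Matrix.det_succ_row_zero, Fin.sum_univ_succ]
  rfl

/-- the family of integral elements -/
noncomputable def fam {H : Type} [Field H] (D : Fld H) : Fin 6 → H :=
  ![1, D.p, D.p ^ 2, D.q, D.p * D.q, D.p ^ 2 * D.q]

theorem key {H : Type} [Field H] [NumberField H] (D : Fld H)
    (t : Algebra.trace ℚ H 1 = 6 ∧ Algebra.trace ℚ H D.p = 0 ∧ Algebra.trace ℚ H (D.p ^ 2) = 4 ∧
    Algebra.trace ℚ H D.q = 0 ∧ Algebra.trace ℚ H (D.p * D.q) = -2 ∧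
    Algebra.trace ℚ H (D.p ^ 2 * D.q) = -3) (u : H) (a b c d e f : ℚ) {n : ℚ}
    (hu : u = (a : H) + (b : H) * D.p + (c : H) * D.p ^ 2 + (d : H) * D.q + (e : H) * (D.p * D.q) +
      (f : H) * (D.p ^ 2 * D.q)) (hn : n = 6 * a + 4 * c - 2 * e - 3 * f) :
    Algebra.trace ℚ H u = n := by
  obtain ⟨t1, t2, t3, t4, t5, t6⟩ := t
  have hu' : u = a • (1 : H) + b • D.p + c • D.p ^ 2 + d • D.q + e • (D.p * D.q) +
      f • (D.p ^ 2 * D.q) := by
    simp only [Rat.smul_def]
    rw [hu, mul_one]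
  rw [hu']
  simp only [map_add, map_smul, t1, t2, t3, t4, t5, t6, smul_eq_mul]
  rw [hn]; ring

theorem trace_fam {H : Type} [Field H] [NumberField H] (D : Fld H)
    (h6 : Module.finrank ℚ H = 6) (i j : Fin 6) :
    Algebra.trace ℚ H (fam D i * fam D j) = (T i j : ℚ) := by
  have t := traces D h6
  have h1 := D.hp
  have h2 := D.hq
  fin_cases i <;> fin_cases j
  · exact key D t _ (1) (0) (0) (0) (0) (0) (by simp [fam]) (by norm_num [T])
  · exact key D t _ (0) (1) (0) (0) (0) (0) (by simp [fam]) (by norm_num [T])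
  · exact key D t _ (0) (0) (1) (0) (0) (0) (by simp [fam]) (by norm_num [T])
  · exact key D t _ (0) (0) (0) (1) (0) (0) (by simp [fam]) (by norm_num [T])
  · exact key D t _ (0) (0) (0) (0) (1) (0) (by simp [fam]) (by norm_num [T])
  · exact key D t _ (0) (0) (0) (0) (0) (1) (by simp [fam]) (by norm_num [T])
  · exact key D t _ (0) (1) (0) (0) (0) (0) (by simp [fam]) (by norm_num [T])
  · exact key D t _ (0) (0) (1) (0) (0) (0) (by simp [fam]; linear_combination (0) * h1 + (0) * h2) (by norm_num [T])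
  · exact key D t _ (1) (1) (0) (0) (0) (0) (by simp [fam]; linear_combination ((1)*D.p^0*D.q^0) * h1 + (0) * h2) (by norm_num [T])
  · exact key D t _ (0) (0) (0) (0) (1) (0) (by simp [fam]) (by norm_num [T])
  · exact key D t _ (0) (0) (0) (0) (0) (1) (by simp [fam]; linear_combination (0) * h1 + (0) * h2) (by norm_num [T])
  · exact key D t _ (0) (0) (0) (1) (1) (0) (by simp [fam]; linear_combination ((1)*D.p^0*D.q^1) * h1 + (0) * h2) (by norm_num [T])
  · exact key D t _ (0) (0) (1) (0) (0) (0) (by simp [fam]) (by norm_num [T])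
  · exact key D t _ (1) (1) (0) (0) (0) (0) (by simp [fam]; linear_combination ((1)*D.p^0*D.q^0) * h1 + (0) * h2) (by norm_num [T])
  · exact key D t _ (0) (1) (1) (0) (0) (0) (by simp [fam]; linear_combination ((1)*D.p^1*D.q^0) * h1 + (0) * h2) (by norm_num [T])
  · exact key D t _ (0) (0) (0) (0) (0) (1) (by simp [fam]) (by norm_num [T])
  · exact key D t _ (0) (0) (0) (1) (1) (0) (by simp [fam]; linear_combination ((1)*D.p^0*D.q^1) * h1 + (0) * h2) (by norm_num [T])
  · exact key D t _ (0) (0) (0) (0) (1) (1) (by simp [fam]; linear_combination ((1)*D.p^1*D.q^1) * h1 + (0) * h2) (by norm_num [T])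
  · exact key D t _ (0) (0) (0) (1) (0) (0) (by simp [fam]) (by norm_num [T])
  · exact key D t _ (0) (0) (0) (0) (1) (0) (by simp [fam]; linear_combination (0) * h1 + (0) * h2) (by norm_num [T])
  · exact key D t _ (0) (0) (0) (0) (0) (1) (by simp [fam]; linear_combination (0) * h1 + (0) * h2) (by norm_num [T])
  · exact key D t _ (1) (0) (-1) (0) (-1) (0) (by simp [fam]; linear_combination (0) * h1 + ((1)*D.p^0*D.q^0) * h2) (by norm_num [T])
  · exact key D t _ (-1) (0) (0) (0) (0) (-1) (by simp [fam]; linear_combination ((-1)*D.p^0*D.q^0) * h1 + ((1)*D.p^1*D.q^0) * h2) (by norm_num [T])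
  · exact key D t _ (0) (-1) (0) (-1) (-1) (0) (by simp [fam]; linear_combination ((-1)*D.p^0*D.q^1+(-1)*D.p^1*D.q^0) * h1 + ((1)*D.p^2*D.q^0) * h2) (by norm_num [T])
  · exact key D t _ (0) (0) (0) (0) (1) (0) (by simp [fam]) (by norm_num [T])
  · exact key D t _ (0) (0) (0) (0) (0) (1) (by simp [fam]; linear_combination (0) * h1 + (0) * h2) (by norm_num [T])
  · exact key D t _ (0) (0) (0) (1) (1) (0) (by simp [fam]; linear_combination ((1)*D.p^0*D.q^1) * h1 + (0) * h2) (by norm_num [T])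
  · exact key D t _ (-1) (0) (0) (0) (0) (-1) (by simp [fam]; linear_combination ((-1)*D.p^0*D.q^0) * h1 + ((1)*D.p^1*D.q^0) * h2) (by norm_num [T])
  · exact key D t _ (0) (-1) (0) (-1) (-1) (0) (by simp [fam]; linear_combination ((-1)*D.p^0*D.q^1+(-1)*D.p^1*D.q^0) * h1 + ((1)*D.p^2*D.q^0) * h2) (by norm_num [T])
  · exact key D t _ (0) (0) (-1) (0) (-1) (-1) (by simp [fam]; linear_combination ((-1)*D.p^1*D.q^1+(-1)*D.p^2*D.q^0) * h1 + ((1)*D.p^3*D.q^0) * h2) (by norm_num [T])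
  · exact key D t _ (0) (0) (0) (0) (0) (1) (by simp [fam]) (by norm_num [T])
  · exact key D t _ (0) (0) (0) (1) (1) (0) (by simp [fam]; linear_combination ((1)*D.p^0*D.q^1) * h1 + (0) * h2) (by norm_num [T])
  · exact key D t _ (0) (0) (0) (0) (1) (1) (by simp [fam]; linear_combination ((1)*D.p^1*D.q^1) * h1 + (0) * h2) (by norm_num [T])
  · exact key D t _ (0) (-1) (0) (-1) (-1) (0) (by simp [fam]; linear_combination ((-1)*D.p^0*D.q^1+(-1)*D.p^1*D.q^0) * h1 + ((1)*D.p^2*D.q^0) * h2) (by norm_num [T])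
  · exact key D t _ (0) (0) (-1) (0) (-1) (-1) (by simp [fam]; linear_combination ((-1)*D.p^1*D.q^1+(-1)*D.p^2*D.q^0) * h1 + ((1)*D.p^3*D.q^0) * h2) (by norm_num [T])
  · exact key D t _ (-1) (-1) (0) (-1) (-1) (-1) (by simp [fam]; linear_combination ((-1)*D.p^0*D.q^0+(-1)*D.p^0*D.q^1+(-1)*D.p^2*D.q^1+(-1)*D.p^3*D.q^0) * h1 + ((1)*D.p^4*D.q^0) * h2) (by norm_num [T])

/-- the discriminant of `H` is at most `12167` in absolute value -/
theorem abs_discr {H : Type} [Field H] [NumberField H] (D : Fld H)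
    (h6 : Module.finrank ℚ H = 6) : |NumberField.discr H| ≤ 12167 := by
  classical
  have hpi : IsIntegral ℤ D.p := by
    refine ⟨Polynomial.X ^ 3 - Polynomial.X - 1, ?_, ?_⟩
    · monicity!
    · simp [D.hp]
  have hqi : IsIntegral ℤ D.q := by
    have := hpi.map (D.σ : H →+* H).toIntAlgHom
    simpa [D.σp] using this
  have hfam : ∀ i, IsIntegral ℤ (fam D i) := by
    intro i
    fin_cases i
    · exact isIntegral_one
    · exact hpi
    · exact hpi.pow 2
    · exact hqi
    · exact hpi.mul hqi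
    · exact (hpi.pow 2).mul hqi
  let b : Fin 6 → 𝓞 H := fun i => ⟨fam D i, hfam i⟩
  have hb : ∀ i, ((b i : 𝓞 H) : H) = fam D i := fun i => rfl
  have hcard : Fintype.card (Module.Free.ChooseBasisIndex ℤ (𝓞 H)) = Fintype.card (Fin 6) := by
    rw [← Module.finrank_eq_card_chooseBasisIndex, RingOfIntegers.rank, h6, Fintype.card_fin]
  let e := Fintype.equivOfCardEq hcard
  let B : Module.Basis (Fin 6) ℤ (𝓞 H) := (RingOfIntegers.basis H).reindex e
  have h1 : Algebra.discr ℤ b = (B.toMatrix b).det ^ 2 * NumberField.discr H := by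
    rw [← NumberField.discr_eq_discr H B, ← Algebra.discr_of_matrix_vecMul,
      Module.Basis.toMatrix_map_vecMul]
  have h2 : Algebra.discr ℤ b = -12167 := by
    rw [Algebra.discr_def, ← det_T]
    congr 1
    ext i j
    have := trace_fam D h6 i j
    rw [← hb, ← hb, ← map_mul, ← Algebra.coe_trace_int] at this
    rw [Algebra.traceMatrix_apply, Algebra.traceForm_apply]
    exact_mod_cast this
  rw [h2] at h1
  have h3 : 1 ≤ (B.toMatrix b).det ^ 2 := by
    rcases eq_or_ne (B.toMatrix b).det 0 with h | h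
    · rw [h] at h1; norm_num at h1
    · have := sq_nonneg (B.toMatrix b).det
      have : (B.toMatrix b).det ^ 2 ≠ 0 := pow_ne_zero 2 h
      omega
  have h4 : |(-12167 : ℤ)| = (B.toMatrix b).det ^ 2 * |NumberField.discr H| := by
    rw [h1, abs_mul, abs_of_nonneg (sq_nonneg _)]
  have h5 : |(-12167 : ℤ)| = 12167 := by norm_num
  rw [h5] at h4
  nlinarith [abs_nonneg (NumberField.discr H)]

/-- no ideal of norm `2` or `3` -/
theorem no_ideal {H : Type} [Field H] [NumberField H] (D : Fld H) (I : Ideal (𝓞 H)) (n : ℕ)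
    (hn : n.Prime) (hI : Ideal.absNorm I = n) (h : ∀ x : ZMod n, x ^ 3 ≠ x + 1) : False := by
  classical
  have hpi : IsIntegral ℤ D.p := by
    refine ⟨Polynomial.X ^ 3 - Polynomial.X - 1, ?_, ?_⟩
    · monicity!
    · simp [D.hp]
  let P : 𝓞 H := ⟨D.p, hpi⟩
  have hP : P ^ 3 = P + 1 := by
    apply RingOfIntegers.ext
    exact D.hp
  have hc : Nat.card (𝓞 H ⧸ I) = n := by rw [← hI]; rfl
  have hfin : Finite (𝓞 H ⧸ I) := Nat.finite_of_card_ne_zero (by rw [hc]; exact hn.ne_zero)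
  have : Fintype (𝓞 H ⧸ I) := Fintype.ofFinite _
  rw [Nat.card_eq_fintype_card] at hc
  let f := (ZMod.ringEquivOfPrime (𝓞 H ⧸ I) hn hc).symm
  apply h (f (Ideal.Quotient.mk I P))
  rw [← map_pow, ← map_pow, hP, map_add, map_add, map_one, map_one]

theorem t_PID : S_PID := by
  intro H _ _ D h6 _
  apply RingOfIntegers.isPrincipalIdealRing_of_isPrincipal_of_norm_le
  intro I hI
  rw [nc D h6, h6] at hI
  have hd := abs_discr D h6
  have hs : √|(NumberField.discr H : ℝ)| ≤ 111 := by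
    rw [Real.sqrt_le_left (by norm_num)]
    have : (|NumberField.discr H| : ℤ) ≤ (12167 : ℤ) := hd
    have h2 : ((|NumberField.discr H| : ℤ) : ℝ) ≤ ((12167 : ℤ) : ℝ) := by exact_mod_cast this
    push_cast at h2
    linarith
  have hpi : 4 / Real.pi ≤ 4 / 3.14 := by
    apply div_le_div_of_nonneg_left (by norm_num) (by norm_num) Real.pi_gt_d2.le
  have hpos : (0:ℝ) ≤ 4 / Real.pi := by positivity
  have h3 : (4 / Real.pi) ^ 3 ≤ (4 / 3.14) ^ 3 := pow_le_pow_left₀ hpos hpi 3
  have hf : ((Nat.factorial 6 : ℕ) : ℝ) = 720 := by norm_num [Nat.factorial]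
  have h4 : (Ideal.absNorm (I : Ideal (𝓞 H)) : ℝ) < 4 := by
    refine lt_of_le_of_lt hI ?_
    rw [hf]
    have h6' : (((6 : ℕ) : ℝ)) = 6 := by norm_num
    rw [h6']
    have h7 : (4 / Real.pi) ^ 3 * (720 / 6 ^ 6 * √|(NumberField.discr H : ℝ)|) ≤
        (4 / 3.14) ^ 3 * (720 / 6 ^ 6 * 111) :=
      mul_le_mul h3 (mul_le_mul_of_nonneg_left hs (by positivity)) (by positivity) (by positivity)
    refine lt_of_le_of_lt h7 ?_
    norm_num
  have h5 : Ideal.absNorm (I : Ideal (𝓞 H)) < 4 := by exact_mod_cast h4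
  have h0 := Ideal.absNorm_ne_zero_of_nonZeroDivisors I
  have : Ideal.absNorm (I : Ideal (𝓞 H)) = 1 ∨ Ideal.absNorm (I : Ideal (𝓞 H)) = 2 ∨
      Ideal.absNorm (I : Ideal (𝓞 H)) = 3 := by omega
  rcases this with h | h | h
  · rw [Ideal.absNorm_eq_one_iff.mp h]; exact top_isPrincipal
  · exact (no_ideal D I 2 Nat.prime_two h (by decide)).elim
  · exact (no_ideal D I 3 Nat.prime_three h (by decide)).elim

end Pool.Agent.E8helper87.CB
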